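import Mathlib
import Pool.Agent.Q112.ProjHyper

/-!
# The projective free hyperoctahedral quantum group is not a quantum permutation group

`O(PH_n^+)` maps onto `ℂ[t, t⁻¹]`, a domain, so it is not generated by idempotents.
-/

namespace Pool.Agent.Results.MP_8a5df5_al.NotQuantumPermutation

open Pool.Agent.Q112.PH

/-- For every `n ≥ 2` and every `N` there is no surjective algebra homomorphism
`O(S_N^+) → O(PH_n^+)`; in particular `PH_n^+` is not a quantum subgroup of `S_N^+`. -/
theorem result (n : ℕ) (hn : 2 ≤ n) (N : ℕ) :
    ¬ ∃ f : OS N →ₐ[ℂ] OPH n, Function.Surjective f :=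
  no_surjection n hn N

end Pool.Agent.Results.MP_8a5df5_al.NotQuantumPermutation
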